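import Mathlib
import Pool.Agent.TH384.SD.Norm

/-!
# Maximal Sidon sets in `ZMod k × ZMod k` for `k ≤ 9`

For `1 ≤ k ≤ 9` the maximal size of a Sidon set in `ZMod k × ZMod k` is `k`, except for `k = 2, 8, 9`,
where it is `k - 1`.

For `k = 8, 9` let `A` be a Sidon set of size `k`.  Its `k (k - 1)` differences are distinct, so they
do not lie in a proper subgroup; hence there are `a`, `b`, `c` in `A` such that `b - a`, `c - a` is a
basis, and by an affine automorphism one may assume that `(0, 0)`, `(1, 0)`, `(0, 1)` lie in `A`.  An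
exhaustive search with bit masks, proved correct in general and evaluated by the kernel, shows that
there is no such set.
-/

set_option autoImplicit false

namespace Pool.Agent.Results.MP_6c54ca_co.EightAndNine

open Finset

/-- `A` is a Sidon set: the sums `a + b` of elements of `A` are pairwise distinct up to the order
of the two terms. -/
def IsSidon {G : Type} [AddCommGroup G] (A : Finset G) : Prop :=
  ∀ a ∈ A, ∀ b ∈ A, ∀ c ∈ A, ∀ d ∈ A, a + b = c + d → (a = c ∧ b = d) ∨ (a = d ∧ b = c)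

/-- `σ(G, 2)`: the maximum size of a Sidon set in `G` -/
noncomputable def sigma (G : Type) [AddCommGroup G] : ℕ :=
  sSup {m | ∃ A : Finset G, IsSidon A ∧ A.card = m}

lemma sidon_iff {G : Type} [AddCommGroup G] {A : Finset G} :
    IsSidon A ↔ Pool.Agent.TH384.SD.IsSidon A := Iff.rfl

lemma sigma_eq {G : Type} [AddCommGroup G] {m : ℕ} (h1 : ∃ A : Finset G, IsSidon A ∧ A.card = m)
    (h2 : ∀ A : Finset G, IsSidon A → A.card ≠ m + 1) : sigma G = m := by
  refine IsGreatest.csSup_eq ⟨h1, ?_⟩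
  rintro _ ⟨A, hA, rfl⟩
  by_contra hc
  push Not at hc
  obtain ⟨B, hB, hBc⟩ := exists_subset_card_eq (Nat.succ_le_of_lt hc)
  exact h2 B (fun a ha b hb c hc d hd => hA a (hB ha) b (hB hb) c (hB hc) d (hB hd)) hBc

lemma sigma_eq' {k : ℕ} [NeZero k]
    (h1 : ∃ A : Finset (ZMod k × ZMod k), IsSidon A ∧ A.card = k) :
    sigma (ZMod k × ZMod k) = k := by
  classical
  refine sigma_eq h1 ?_
  intro A hA hc
  have h := Pool.Agent.TH384.SD.count (H := univ) (sidon_iff.1 hA) (fun _ _ _ _ => mem_univ _)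
  rw [card_univ, Fintype.card_prod, ZMod.card, hc] at h
  have : (k + 1) * (k + 1) - (k + 1) = (k + 1) * k := by
    rw [Nat.mul_add (k + 1) k 1, mul_one, Nat.add_sub_cancel]
  rw [this] at h
  have hk : 0 < k := Nat.pos_of_ne_zero (NeZero.ne k)
  nlinarith

instance {G : Type} [AddCommGroup G] [DecidableEq G] (A : Finset G) : Decidable (IsSidon A) := by
  unfold IsSidon
  infer_instance

theorem result : ∀ k : ℕ, 1 ≤ k → k ≤ 9 →
    sigma (ZMod k × ZMod k) = if k = 2 ∨ k = 8 ∨ k = 9 then k - 1 else k := by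
  have h8 : sigma (ZMod 8 × ZMod 8) = 7 := by
    refine sigma_eq ⟨{(0, 0), (0, 1), (0, 3), (1, 0), (2, 1), (3, 3), (6, 4)}, ?_, ?_⟩ ?_
    · decide +kernel
    · decide +kernel
    · exact fun A hA => Pool.Agent.TH384.SD.no8 A hA
  have h9 : sigma (ZMod 9 × ZMod 9) = 8 := by
    refine sigma_eq ⟨{(0, 0), (0, 1), (0, 3), (1, 0), (1, 4), (2, 2), (3, 7), (5, 3)}, ?_, ?_⟩ ?_
    · decide +kernel
    · decide +kernel
    · exact fun A hA => Pool.Agent.TH384.SD.no9 A hA
  have h1 : sigma (ZMod 1 × ZMod 1) = 1 :=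
    sigma_eq' ⟨{(0, 0)}, by decide +kernel, by decide +kernel⟩
  have h2 : sigma (ZMod 2 × ZMod 2) = 1 := by
    refine sigma_eq ⟨{(0, 0)}, by decide +kernel, by decide +kernel⟩ ?_
    intro A hA hc
    obtain ⟨a, b, hab, rfl⟩ := card_eq_two.1 hc
    have key : ∀ x : ZMod 2 × ZMod 2, x + x = 0 := by decide +kernel
    rcases hA a (by simp) a (by simp) b (by simp) b (by simp) (by rw [key, key]) with
      ⟨h, -⟩ | ⟨h, -⟩ <;> exact hab h
  have h3 : sigma (ZMod 3 × ZMod 3) = 3 :=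
    sigma_eq' ⟨{(0, 0), (0, 1), (1, 0)}, by decide +kernel, by decide +kernel⟩
  have h4 : sigma (ZMod 4 × ZMod 4) = 4 :=
    sigma_eq' ⟨{(0, 0), (0, 1), (1, 0), (3, 3)}, by decide +kernel, by decide +kernel⟩
  have h5 : sigma (ZMod 5 × ZMod 5) = 5 :=
    sigma_eq' ⟨{(0, 0), (0, 1), (1, 0), (1, 2), (3, 2)}, by decide +kernel, by decide +kernel⟩
  have h6 : sigma (ZMod 6 × ZMod 6) = 6 :=
    sigma_eq' ⟨{(0, 0), (0, 1), (1, 0), (1, 2), (3, 2), (5, 3)}, by decide +kernel,
      by decide +kernel⟩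
  have h7 : sigma (ZMod 7 × ZMod 7) = 7 :=
    sigma_eq' ⟨{(0, 0), (0, 1), (1, 0), (1, 2), (2, 5), (5, 1), (5, 5)}, by decide +kernel,
      by decide +kernel⟩
  intro k hk1 hk9
  interval_cases k
  · simp [h1]
  · simp [h2]
  · simp [h3]
  · simp [h4]
  · simp [h5]
  · simp [h6]
  · simp [h7]
  · simp [h8]
  · simp [h9]

end Pool.Agent.Results.MP_6c54ca_co.EightAndNine
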